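import Pool.Agent.helper20.BDC.Lim

/-!
# Uniform boundedness of the toric divisors which compute minimal log discrepancies
-/

noncomputable section

namespace Pool.Agent.helper20.BDC

open Finset
open scoped Pointwise
open Pool.Agent.helper22.ACC (GenPair IsLC mld logDisc coef cone toReal GG od pt latt coneOf tr
  pair low pt_mem pt_interior interior_smul caratheodory logDisc_pt mld_le exists_lt good_of
  closure_nonneg)

variable {n d : ℕ}

/-- iterated reduction in coordinates -/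
theorem iter {Φ : (Fin d → ℝ) → ℝ} {R : ℝ}
    (hΦ : ∀ w : Fin d → ℝ, (∀ i, 0 < w i) → R < ∑ i, w i →
      ∃ z : Fin d → ℕ, z ≠ 0 ∧ (∀ i, (z i : ℝ) < w i) ∧ Φ (fun i => w i - z i) ≤ Φ w) :
    ∀ (N : ℕ) (w : Fin d → ℝ), (∀ i, 0 < w i) → ∑ i, w i ≤ R + N →
      ∃ k : Fin d → ℕ, (∀ i, (k i : ℝ) < w i) ∧ ∑ i, (w i - k i) ≤ R ∧
        Φ (fun i => w i - k i) ≤ Φ w := by
  intro N
  induction N with
  | zero =>
    intro w hw hN
    refine ⟨0, ?_, ?_, ?_⟩
    · intro i; simpa using hw i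
    · simpa using hN
    · simp
  | succ N ih =>
    intro w hw hN
    by_cases hR : ∑ i, w i ≤ R
    · refine ⟨0, ?_, ?_, ?_⟩
      · intro i; simpa using hw i
      · simpa using hR
      · simp
    · obtain ⟨z, hz0, hzw, hzle⟩ := hΦ w hw (not_le.1 hR)
      obtain ⟨i0, hi0⟩ : ∃ i, z i ≠ 0 := by
        by_contra h
        push Not at h
        exact hz0 (funext h)
      have h1 : (1 : ℝ) ≤ ∑ i, (z i : ℝ) := by
        have h2 : (1 : ℝ) ≤ z i0 := by exact_mod_cast Nat.one_le_iff_ne_zero.2 hi0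
        exact h2.trans (Finset.single_le_sum (f := fun i => (z i : ℝ))
          (fun i _ => Nat.cast_nonneg _) (Finset.mem_univ i0))
      obtain ⟨k, hk1, hk2, hk3⟩ := ih (fun i => w i - z i) (fun i => sub_pos.2 (hzw i)) (by
        rw [Finset.sum_sub_distrib]
        push_cast at hN
        linarith)
      refine ⟨fun i => z i + k i, ?_, ?_, ?_⟩
      · intro i
        push_cast
        linarith [hk1 i]
      · refine le_trans (le_of_eq ?_) hk2
        exact Finset.sum_congr rfl fun i _ => by push_cast; ring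
      · refine le_trans (le_of_eq ?_) (hk3.trans hzle)
        congr 1
        funext i
        push_cast
        ring

theorem exists_pt {t : GenPair n} {z : Fin n → ℤ} (hz : toReal z ∈ interior (cone t)) :
    ∃ d : ℕ, d < n + 1 ∧ ∃ (T : Fin d → Fin t.p) (l : Fin d → ℝ), (∀ i, 0 < l i) ∧
      pt t.v T l = toReal z := by
  obtain ⟨μ, hμ, hμ2⟩ : toReal z ∈ cone t := interior_subset hz
  obtain ⟨d, T, l, hl, hzl, hli⟩ := caratheodory (fun i => (fun j => (t.v i j : ℝ))) (toReal z) _ μ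
    rfl hμ (by
      funext j
      simp only [Finset.sum_apply, Pi.smul_apply, smul_eq_mul]
      exact hμ2 j)
  have hpt : pt t.v T l = toReal z := by
    rw [hzl]
    funext j
    simp only [pt, Finset.sum_apply, Pi.smul_apply, smul_eq_mul]
  refine ⟨d, ?_, T, l, hl, hpt⟩
  have h1 := hli.fintype_card_le_finrank
  simp only [Fintype.card_fin, Module.finrank_fin_fun] at h1
  omega

/-- sums over fibres -/
theorem fib_sum {p : ℕ} (T : Fin d → Fin p) (c : Fin d → ℝ) (g : Fin p → ℝ) :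
    ∑ a, (∑ i, if T i = a then c i else 0) * g a = ∑ i, c i * g (T i) := by
  classical
  simp only [Finset.sum_mul]
  rw [Finset.sum_comm]
  refine Finset.sum_congr rfl fun i _ => ?_
  rw [Finset.sum_eq_single (T i)]
  · simp
  · intro b _ hb
    rw [if_neg (Ne.symm hb), zero_mul]
  · intro h; exact absurd (Finset.mem_univ _) h

/-- the point `z` is a nonnegative combination of the generators, with sum of the coefficients at
most `R` -/
def Small (R : ℝ) (t : GenPair n) (z : Fin n → ℤ) : Prop :=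
  ∃ c : Fin t.p → ℝ, (∀ i, 0 ≤ c i) ∧ ∑ i, c i ≤ R ∧ ∀ j, (z j : ℝ) = ∑ i, c i * (t.v i j : ℝ)

theorem small_finite (R : ℝ) (t : GenPair n) : {z | Small R t z}.Finite := by
  classical
  set N : ℤ := ⌈R⌉ with hN
  set B : Fin n → ℤ := fun j => N * ∑ i, |t.v i j| with hB
  refine (Set.finite_Icc (-B) B).subset ?_
  rintro z ⟨c, hc0, hcR, hz⟩
  have h1 : ∀ j, |z j| ≤ B j := by
    intro j
    have h2 : |(z j : ℝ)| ≤ ∑ i, c i * |(t.v i j : ℝ)| := by
      rw [hz j]
      refine (Finset.abs_sum_le_sum_abs _ _).trans (Finset.sum_le_sum fun i _ => ?_)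
      rw [abs_mul, abs_of_nonneg (hc0 i)]
    have h3 : ∑ i, c i * |(t.v i j : ℝ)| ≤ ∑ i, (N : ℝ) * |(t.v i j : ℝ)| := by
      refine Finset.sum_le_sum fun i _ => mul_le_mul_of_nonneg_right ?_ (abs_nonneg _)
      exact (Finset.single_le_sum (f := c) (fun i _ => hc0 i) (Finset.mem_univ i)).trans
        (hcR.trans (Int.le_ceil R))
    have h4 : ((|z j| : ℤ) : ℝ) ≤ ((B j : ℤ) : ℝ) := by
      simp only [hB]
      push_cast
      rw [Finset.mul_sum]
      exact h2.trans h3
    exact_mod_cast h4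
  rw [Set.mem_Icc]
  exact ⟨fun j => (abs_le.1 (h1 j)).1, fun j => (abs_le.1 (h1 j)).2⟩

theorem main (n : ℕ) (Γ : Set ℝ) (hΓ : ∀ x ∈ Γ, 0 ≤ x)
    (hdcc : ¬ ∃ f : ℕ → ℝ, StrictAnti f ∧ ∀ k, f k ∈ Γ) :
    ∃ R : ℝ, ∀ t : GenPair n, IsLC Γ t → ∀ z : Fin n → ℤ, toReal z ∈ interior (cone t) →
      ∃ (z' : Fin n → ℤ) (k : Fin t.p → ℕ), toReal z' ∈ interior (cone t) ∧ Small R t z' ∧
        (∀ j, z j = z' j + ∑ i, (k i : ℤ) * t.v i j) ∧
        logDisc t (toReal z') ≤ logDisc t (toReal z) := by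
  classical
  have hWF : Γ.IsPWO := by
    rw [Set.isPWO_iff_isWF, Set.isWF_iff_no_descending_seq]
    intro f hf hmem
    exact hdcc ⟨f, hf, hmem⟩
  choose R hR using fun d => lim d Γ hΓ hWF
  refine ⟨∑ d ∈ range (n + 1), |R d|, fun t ht z hz => ?_⟩
  obtain ⟨d, hd, T, l, hl, hpt⟩ := exists_pt hz
  have hGood := good_of hΓ ht T
  obtain ⟨N, hN⟩ := exists_nat_ge (∑ i, l i - R d)
  obtain ⟨k, hk1, hk2, hk3⟩ := iter (Φ := GG (fun i => coef t (T i)) (t.parts.map (tr t T)))
    (R := R d) (hR d _ _ (fun i => ht.boundary (T i)) (by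
      intro a ha
      obtain ⟨a0, ha0, rfl⟩ := List.mem_map.1 ha
      exact ⟨(ht.parts a0 ha0).1,
        Set.Nonempty.image _ (by exact_mod_cast (ht.parts a0 ha0).2)⟩) hGood.nonneg)
    N l hl (by linarith)
  set l' : Fin d → ℝ := fun i => l i - k i with hl'
  have hl'0 : ∀ i, 0 < l' i := fun i => sub_pos.2 (hk1 i)
  have hpt' : pt t.v T l' = toReal (fun j => z j - ∑ i, (k i : ℤ) * t.v (T i) j) := by
    funext j
    have h1 := congrFun hpt j
    simp only [pt, toReal] at h1 ⊢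
    push_cast
    rw [← h1, ← Finset.sum_sub_distrib]
    exact Finset.sum_congr rfl fun i _ => by simp only [hl']; ring
  have hint : pt t.v T l' ∈ interior (cone t) :=
    pt_interior t.v T (l := l) (by rw [hpt]; exact hz) hl'0
  refine ⟨fun j => z j - ∑ i, (k i : ℤ) * t.v (T i) j,
    fun a => ∑ i, if T i = a then k i else 0, ?_, ?_, ?_, ?_⟩
  · rw [← hpt']; exact hint
  · refine ⟨fun a => ∑ i, if T i = a then l' i else 0, fun a => Finset.sum_nonneg fun i _ => ?_,
      ?_, fun j => ?_⟩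
    · split_ifs
      · exact (hl'0 i).le
      · exact le_rfl
    · have h1 := fib_sum T l' (fun _ => 1)
      simp only [mul_one] at h1
      rw [h1]
      refine hk2.trans ((le_abs_self _).trans ?_)
      exact Finset.single_le_sum (f := fun d => |R d|) (fun _ _ => abs_nonneg _)
        (Finset.mem_range.2 hd)
    · rw [fib_sum T l' (fun a => (t.v a j : ℝ))]
      have h1 := congrFun hpt' j
      simp only [pt, toReal] at h1
      exact h1.symm
  · intro j
    have h1 := fib_sum T (fun i => (k i : ℝ)) (fun a => (t.v a j : ℝ))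
    have h2 : ∑ a, (((∑ i, if T i = a then k i else 0 : ℕ) : ℤ)) * t.v a j =
        ∑ i, (k i : ℤ) * t.v (T i) j := by
      have h3 : ((∑ a, (((∑ i, if T i = a then k i else 0 : ℕ) : ℤ)) * t.v a j : ℤ) : ℝ) =
          ((∑ i, (k i : ℤ) * t.v (T i) j : ℤ) : ℝ) := by
        push_cast
        exact h1
      exact_mod_cast h3
    rw [h2]
    ring
  · rw [← hpt', ← hpt, logDisc_pt ht T hl'0, logDisc_pt ht T hl]
    exact hk3

theorem low_smul (S : Finset (Fin n → ℤ)) {a : ℝ} (ha : 0 ≤ a) (w : Fin n → ℝ) :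
    low S (a • w) = a * low S w := by
  have h1 : ((fun m => pair m (a • w)) '' (S : Set (Fin n → ℤ))) =
      a • ((fun m => pair m w) '' (S : Set (Fin n → ℤ))) := by
    rw [← Set.image_smul, Set.image_image]
    refine Set.image_congr fun m _ => ?_
    simp only [pair, Pi.smul_apply, smul_eq_mul, Finset.mul_sum]
    exact Finset.sum_congr rfl fun i _ => by ring
  rw [low, h1, Real.sInf_smul_of_nonneg ha, smul_eq_mul, low]

theorem logDisc_smul (t : GenPair n) {a : ℝ} (ha : 0 ≤ a) (w : Fin n → ℝ) :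
    logDisc t (a • w) = a * logDisc t w := by
  simp only [logDisc, low_smul _ ha, Pi.smul_apply, smul_eq_mul, mul_sub, Finset.mul_sum]
  congr 1
  · exact Finset.sum_congr rfl fun i _ => by ring
  · rw [← List.sum_map_mul_left]
    congr 1
    exact List.map_congr_left fun x _ => by ring

theorem main2 (n : ℕ) (Γ : Set ℝ) (hΓ : ∀ x ∈ Γ, 0 ≤ x)
    (hdcc : ¬ ∃ f : ℕ → ℝ, StrictAnti f ∧ ∀ k, f k ∈ Γ) :
    ∃ R : ℝ, ∀ t : GenPair n, IsLC Γ t →
      (∃ z : Fin n → ℤ, toReal z ∈ interior (cone t) ∧ Small R t z ∧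
        logDisc t (toReal z) = mld t ∧
        ∀ (m : ℕ) (y : Fin n → ℤ), 2 ≤ m → (∀ j, z j = m * y j) → z = 0) ∧
      ∀ z : Fin n → ℤ, toReal z ∈ interior (cone t) →
        ∃ (z' : Fin n → ℤ) (k : Fin t.p → ℕ), toReal z' ∈ interior (cone t) ∧ Small R t z' ∧
          (∀ j, z j = z' j + ∑ i, (k i : ℤ) * t.v i j) ∧
          logDisc t (toReal z') ≤ logDisc t (toReal z) := by
  classical
  obtain ⟨R, hR⟩ := main n Γ hΓ hdcc
  refine ⟨R, fun t ht => ⟨?_, hR t ht⟩⟩
  obtain ⟨z0, hz0, _⟩ := exists_lt ht (x := mld t + 1) (by linarith)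
  obtain ⟨z1, _, hz1, hz1s, _, _⟩ := hR t ht z0 hz0
  have hfin : {z | toReal z ∈ interior (cone t) ∧ Small R t z}.Finite :=
    (small_finite R t).subset fun z hz => hz.2
  obtain ⟨z2, hz2, hmin⟩ := hfin.toFinset.exists_min_image (fun z => logDisc t (toReal z))
    ⟨z1, by rw [Set.Finite.mem_toFinset]; exact ⟨hz1, hz1s⟩⟩
  rw [Set.Finite.mem_toFinset] at hz2
  have hz2m : logDisc t (toReal z2) = mld t := by
    refine le_antisymm ?_ (mld_le ht hz2.1)
    have hne : {x | ∃ z : Fin n → ℤ, toReal z ∈ interior (cone t) ∧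
        x = logDisc t (toReal z)}.Nonempty := ⟨_, z2, hz2.1, rfl⟩
    refine le_csInf hne ?_
    rintro _ ⟨y, hy, rfl⟩
    obtain ⟨y', _, hy', hy's, _, hle⟩ := hR t ht y hy
    exact (hmin y' (by rw [Set.Finite.mem_toFinset]; exact ⟨hy', hy's⟩)).trans hle
  -- a primitive one
  have hfin2 : {z | toReal z ∈ interior (cone t) ∧ Small R t z ∧
      logDisc t (toReal z) = mld t}.Finite := (small_finite R t).subset fun z hz => hz.2.1
  obtain ⟨z, hz, hzmin⟩ := hfin2.toFinset.exists_min_image (fun z => ∑ j, |z j|)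
    ⟨z2, by rw [Set.Finite.mem_toFinset]; exact ⟨hz2.1, hz2.2, hz2m⟩⟩
  rw [Set.Finite.mem_toFinset] at hz
  refine ⟨z, hz.1, hz.2.1, hz.2.2, fun m y hm hzy => ?_⟩
  have hmr : (2 : ℝ) ≤ m := by exact_mod_cast hm
  have hm0 : (0 : ℝ) < m := by linarith
  have hy : toReal y = (m : ℝ)⁻¹ • toReal z := by
    funext j
    simp only [toReal, Pi.smul_apply, smul_eq_mul, hzy j]
    push_cast
    field_simp
  have hyint : toReal y ∈ interior (cone t) := by
    rw [hy]
    exact interior_smul t.v hz.1 (inv_pos.2 hm0)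
  have hys : Small R t y := by
    obtain ⟨c, hc0, hcR, hcz⟩ := hz.2.1
    refine ⟨fun i => (m : ℝ)⁻¹ * c i, fun i => mul_nonneg (inv_pos.2 hm0).le (hc0 i), ?_,
      fun j => ?_⟩
    · rw [← Finset.mul_sum]
      have h1 : 0 ≤ ∑ i, c i := Finset.sum_nonneg fun i _ => hc0 i
      have h2 : (m : ℝ)⁻¹ ≤ 1 := inv_le_one_of_one_le₀ (by linarith)
      nlinarith
    · have h1 := congrFun hy j
      simp only [toReal, Pi.smul_apply, smul_eq_mul] at h1
      rw [h1, hcz j, Finset.mul_sum]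
      exact Finset.sum_congr rfl fun i _ => by ring
  have hyl : logDisc t (toReal y) = (m : ℝ)⁻¹ * mld t := by
    rw [hy, logDisc_smul t (inv_pos.2 hm0).le, hz.2.2]
  have h0 : 0 ≤ mld t := by
    rw [← hz.2.2]
    exact ht.lc z (interior_subset hz.1)
  have h1 : mld t ≤ (m : ℝ)⁻¹ * mld t := by
    rw [← hyl]
    exact mld_le ht hyint
  have h2 : (m : ℝ)⁻¹ ≤ 1 / 2 := by
    rw [inv_eq_one_div]
    exact one_div_le_one_div_of_le (by norm_num) hmr
  have h3 : mld t = 0 := by nlinarith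
  have h4 := hzmin y (by
    rw [Set.Finite.mem_toFinset]
    exact ⟨hyint, hys, by rw [hyl, h3, mul_zero]⟩)
  have h5 : ∑ j, |z j| = m * ∑ j, |y j| := by
    rw [Finset.mul_sum]
    refine Finset.sum_congr rfl fun j _ => ?_
    rw [hzy j, abs_mul, Nat.abs_cast]
  have hsum0 : 0 ≤ ∑ j, |y j| := Finset.sum_nonneg fun j _ => abs_nonneg _
  have hmz : (2 : ℤ) ≤ m := by exact_mod_cast hm
  have h6 : ∑ j, |y j| = 0 := by nlinarith
  have h7 := (Finset.sum_eq_zero_iff_of_nonneg fun j _ => abs_nonneg (y j)).1 h6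
  funext j
  have h8 := abs_eq_zero.1 (h7 j (Finset.mem_univ j))
  rw [hzy j, h8, mul_zero]
  rfl

end Pool.Agent.helper20.BDC
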