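import Mathlib

/-!
# Points of rational polyhedra are convex combinations of rational points
-/

noncomputable section

namespace Pool.Agent.helper20.BDC

open Finset Filter Topology

/-- a real vector is a convex combination of rational vectors close to it -/
theorem mem_hull_rat {n : ℕ} (θ : Fin n → ℝ) {ε : ℝ} (hε : 0 < ε) :
    θ ∈ convexHull ℝ {x : Fin n → ℝ | ∃ q : Fin n → ℚ, ∀ s, x s = q s ∧ |(q s : ℝ) - θ s| < ε} := by
  classical
  set D := {x : Fin n → ℝ | ∃ q : Fin n → ℚ, ∀ s, x s = q s ∧ |(q s : ℝ) - θ s| < ε} with hD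
  have key : ∀ S : Finset (Fin n), ∀ q : Fin n → ℚ, (∀ s, |(q s : ℝ) - θ s| < ε) →
      (fun s => if s ∈ S then θ s else (q s : ℝ)) ∈ convexHull ℝ D := by
    intro S
    induction S using Finset.induction_on with
    | empty =>
      intro q hq
      apply subset_convexHull
      exact ⟨q, fun s => ⟨by simp, hq s⟩⟩
    | insert a S ha ih =>
      intro q hq
      obtain ⟨q1, h1, h1'⟩ := exists_rat_btwn (show θ a - ε < θ a by linarith)
      obtain ⟨q2, h2, h2'⟩ := exists_rat_btwn (show θ a < θ a + ε by linarith)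
      have m1 := ih (Function.update q a q1) (fun s => by
        by_cases hs : s = a
        · subst hs
          rw [Function.update_self, abs_lt]
          constructor <;> linarith
        · rw [Function.update_of_ne hs]; exact hq s)
      have m2 := ih (Function.update q a q2) (fun s => by
        by_cases hs : s = a
        · subst hs
          rw [Function.update_self, abs_lt]
          constructor <;> linarith
        · rw [Function.update_of_ne hs]; exact hq s)
      have hlt : (0 : ℝ) < q2 - q1 := by linarith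
      have h := convex_convexHull ℝ D m1 m2 (a := (q2 - θ a) / (q2 - q1))
        (b := (θ a - q1) / (q2 - q1)) (div_nonneg (by linarith) hlt.le)
        (div_nonneg (by linarith) hlt.le) (by rw [← add_div]; field_simp; ring)
      convert h using 1
      funext s
      simp only [Pi.add_apply, Pi.smul_apply, smul_eq_mul]
      by_cases hs : s = a
      · subst hs
        rw [if_pos (Finset.mem_insert_self _ _), if_neg ha, if_neg ha, Function.update_self,
          Function.update_self]
        field_simp
        ring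
      · rw [Function.update_of_ne hs, Function.update_of_ne hs]
        by_cases hS : s ∈ S
        · rw [if_pos (Finset.mem_insert_of_mem hS), if_pos hS]
          field_simp
          ring
        · rw [if_neg (by simp [hs, hS]), if_neg hS]
          field_simp
          ring
  obtain ⟨q, hq⟩ : ∃ q : Fin n → ℚ, ∀ s, |(q s : ℝ) - θ s| < ε := by
    have : ∀ s, ∃ q : ℚ, |(q : ℝ) - θ s| < ε := by
      intro s
      obtain ⟨q, h1, h2⟩ := exists_rat_btwn (show θ s < θ s + ε by linarith)
      exact ⟨q, by rw [abs_lt]; constructor <;> linarith⟩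
    choose q hq using this
    exact ⟨q, hq⟩
  have := key Finset.univ q hq
  simpa using this

theorem rat_decomp {τ κ : Type} [Fintype τ] [Fintype κ] (a : κ → τ → ℚ) (r : κ → ℚ) (y : τ → ℝ)
    (hy : ∀ c, ∑ t, (a c t : ℝ) * y t ≤ r c) :
    ∃ (ι : Type) (_ : Fintype ι) (p : ι → ℝ) (x : ι → τ → ℚ), (∀ k, 0 ≤ p k) ∧ ∑ k, p k = 1 ∧
      (∀ k c, ∑ t, a c t * x k t ≤ r c) ∧ ∀ t, y t = ∑ k, p k * x k t := by
  classical
  -- a basis of the rational span
  set L : Submodule ℚ ℝ := Submodule.span ℚ (insert 1 (Set.range y)) with hL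
  have hfin : Module.Finite ℚ L := by
    rw [Module.Finite.iff_fg]
    exact Submodule.fg_span ((Set.finite_range y).insert 1)
  set n := Module.finrank ℚ L with hn
  let bas : Module.Basis (Fin n) ℚ L := Module.finBasis ℚ L
  set θ : Fin n → ℝ := fun s => (bas s : ℝ) with hθ
  have h1L : (1 : ℝ) ∈ L := Submodule.subset_span (Set.mem_insert _ _)
  have hyL : ∀ t, y t ∈ L := fun t =>
    Submodule.subset_span (Set.mem_insert_of_mem _ (Set.mem_range_self t))
  set κ0 : Fin n → ℚ := fun s => bas.repr ⟨1, h1L⟩ s with hκ0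
  set v : τ → Fin n → ℚ := fun t s => bas.repr ⟨y t, hyL t⟩ s with hv
  have hrep : ∀ x : L, (x : ℝ) = ∑ s, ((bas.repr x s : ℚ) : ℝ) * θ s := by
    intro x
    conv_lhs => rw [← bas.sum_repr x]
    rw [Submodule.coe_sum]
    refine Finset.sum_congr rfl fun s _ => ?_
    rw [Submodule.coe_smul, Rat.smul_def]
  have hone : (1 : ℝ) = ∑ s, (κ0 s : ℝ) * θ s := hrep ⟨1, h1L⟩
  have hyt : ∀ t, y t = ∑ s, (v t s : ℝ) * θ s := fun t => hrep ⟨y t, hyL t⟩
  -- linear independence over the rationals
  have hli : ∀ c : Fin n → ℚ, ∑ s, (c s : ℝ) * θ s = 0 → ∀ s, c s = 0 := by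
    intro c hc
    have h1 : ∑ s, c s • bas s = 0 := by
      apply Subtype.ext
      rw [Submodule.coe_sum, Submodule.coe_zero, ← hc]
      refine Finset.sum_congr rfl fun s _ => ?_
      rw [Submodule.coe_smul, Rat.smul_def]
    exact Fintype.linearIndependent_iff.1 bas.linearIndependent c h1
  -- functions of `θ'`
  set Y : τ → (Fin n → ℝ) → ℝ := fun t θ' => ∑ s, (v t s : ℝ) * θ' s with hY
  set κf : (Fin n → ℝ) → ℝ := fun θ' => ∑ s, (κ0 s : ℝ) * θ' s with hκf
  -- near `θ` the inequalities hold
  have hYc : ∀ t, Continuous (Y t) := fun t => by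
    simp only [hY]
    exact continuous_finsetSum _ fun s _ => continuous_const.mul (continuous_apply s)
  have hκc : Continuous κf := by
    simp only [hκf]
    exact continuous_finsetSum _ fun s _ => continuous_const.mul (continuous_apply s)
  have hev : ∀ᶠ θ' in 𝓝 θ, 0 < κf θ' ∧ ∀ c, ∑ t, (a c t : ℝ) * Y t θ' ≤ r c * κf θ' := by
    have e1 : ∀ᶠ θ' in 𝓝 θ, 0 < κf θ' := by
      have : (0 : ℝ) < κf θ := by rw [hκf]; simp only; rw [← hone]; exact one_pos
      exact hκc.continuousAt.eventually (lt_mem_nhds this)
    refine e1.and ?_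
    rw [Filter.eventually_all]
    intro c
    rcases eq_or_lt_of_le (hy c) with heq | hlt
    · -- tight
      have hz : ∀ s, ∑ t, a c t * v t s - r c * κ0 s = 0 := by
        apply hli
        have h2 : ∑ s, ((∑ t, a c t * v t s - r c * κ0 s : ℚ) : ℝ) * θ s =
            ∑ t, (a c t : ℝ) * y t - r c * 1 := by
          rw [hone, Finset.mul_sum]
          simp only [hyt, Finset.mul_sum]
          rw [Finset.sum_comm, ← Finset.sum_sub_distrib]
          refine Finset.sum_congr rfl fun s _ => ?_
          push_cast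
          rw [sub_mul, Finset.sum_mul]
          congr 1
          · exact Finset.sum_congr rfl fun t _ => by ring
          · ring
        rw [h2, heq]; ring
      refine Filter.Eventually.of_forall fun θ' => le_of_eq ?_
      simp only [hY, hκf, Finset.mul_sum]
      rw [Finset.sum_comm]
      refine Finset.sum_congr rfl fun s _ => ?_
      have h3 : ((∑ t, a c t * v t s - r c * κ0 s : ℚ) : ℝ) = 0 := by rw [hz s]; simp
      push_cast at h3
      have h4 : ∑ t, (a c t : ℝ) * ((v t s : ℝ) * θ' s) = (∑ t, (a c t : ℝ) * v t s) * θ' s := by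
        rw [Finset.sum_mul]
        exact Finset.sum_congr rfl fun t _ => by ring
      rw [h4]
      have h5 : ∑ t, (a c t : ℝ) * v t s = r c * κ0 s := by linarith
      rw [h5]; ring
    · have h2 : ∑ t, (a c t : ℝ) * Y t θ < r c * κf θ := by
        simp only [hY, hκf]
        rw [← hone, mul_one]
        simp only [← hyt]
        exact hlt
      have h3 : Continuous fun θ' => r c * κf θ' - ∑ t, (a c t : ℝ) * Y t θ' :=
        (continuous_const.mul hκc).sub
          (continuous_finsetSum _ fun t _ => continuous_const.mul (hYc t))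
      have h4 := h3.continuousAt.eventually (lt_mem_nhds (sub_pos.2 h2))
      exact h4.mono fun θ' h => by linarith
  rw [Metric.eventually_nhds_iff] at hev
  obtain ⟨ε, hε, hball⟩ := hev
  -- convex combination
  have hmem := mem_hull_rat θ (half_pos hε)
  rw [_root_.convexHull_eq] at hmem
  obtain ⟨ι, F, w, z, hw0, hw1, hz, hcm⟩ := hmem
  rw [Finset.centerMass_eq_of_sum_1 _ _ hw1] at hcm
  have hz' : ∀ i : F, ∃ q : Fin n → ℚ, ∀ s, z i s = q s ∧ |(q s : ℝ) - θ s| < ε / 2 :=
    fun i => hz i i.2
  choose q hq using hz'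
  have hdist : ∀ i : F, dist (z i) θ < ε := by
    intro i
    refine lt_of_le_of_lt ((dist_pi_le_iff (half_pos hε).le).2 fun s => ?_) (half_lt_self hε)
    rw [Real.dist_eq, (hq i s).1]
    exact (hq i s).2.le
  have hgood := fun i : F => hball (hdist i)
  set kq : F → ℚ := fun i => ∑ s, κ0 s * q i s with hkq
  set yq : F → τ → ℚ := fun i t => ∑ s, v t s * q i s with hyq
  have hkr : ∀ i : F, (kq i : ℝ) = κf (z i) := by
    intro i
    simp only [hkq, hκf]
    push_cast
    exact Finset.sum_congr rfl fun s _ => by rw [(hq i s).1]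
  have hyr : ∀ (i : F) t, (yq i t : ℝ) = Y t (z i) := by
    intro i t
    simp only [hyq, hY]
    push_cast
    exact Finset.sum_congr rfl fun s _ => by rw [(hq i s).1]
  have hkpos : ∀ i : F, (0 : ℝ) < kq i := fun i => by rw [hkr]; exact (hgood i).1
  have hlin : ∀ c : Fin n → ℝ, ∑ i : F, w i * ∑ s, c s * z i s = ∑ s, c s * θ s := by
    intro c
    have h1 : ∀ s, θ s = ∑ i : F, w i * z i s := by
      intro s
      rw [← hcm, Finset.sum_coe_sort F (fun i => w i * z i s)]
      simp only [Finset.sum_apply, Pi.smul_apply, smul_eq_mul]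
    simp only [Finset.mul_sum]
    rw [Finset.sum_comm]
    refine Finset.sum_congr rfl fun s _ => ?_
    rw [h1 s, Finset.mul_sum]
    exact Finset.sum_congr rfl fun i _ => by ring
  refine ⟨F, inferInstance, fun i => w i * kq i, fun i t => yq i t / kq i, ?_, ?_, ?_, ?_⟩
  · exact fun i => mul_nonneg (hw0 i i.2) (hkpos i).le
  · have h1 := hlin fun s => (κ0 s : ℝ)
    rw [← hone] at h1
    rw [← h1]
    refine Finset.sum_congr rfl fun i _ => ?_
    show w i * (kq i : ℝ) = _
    rw [hkr]
  · intro i c
    have h1 := (hgood i).2 c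
    have h2 : (∑ t, (a c t : ℝ) * (yq i t : ℝ)) ≤ r c * kq i := by
      rw [hkr]
      refine le_trans (le_of_eq ?_) h1
      exact Finset.sum_congr rfl fun t _ => by rw [hyr]
    have h3 : (∑ t, a c t * yq i t) ≤ r c * kq i := by exact_mod_cast h2
    have hkp : (0 : ℚ) < kq i := by exact_mod_cast hkpos i
    have h4 : ∑ t, a c t * (yq i t / kq i) = (∑ t, a c t * yq i t) / kq i := by
      rw [Finset.sum_div]
      exact Finset.sum_congr rfl fun t _ => by ring
    rw [h4, div_le_iff₀ hkp]
    exact h3
  · intro t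
    have h1 := hlin fun s => (v t s : ℝ)
    rw [← hyt t] at h1
    rw [← h1]
    refine Finset.sum_congr rfl fun i _ => ?_
    push_cast
    have h2 := (hkpos i).ne'
    have h3 := hyr i t
    simp only [hY] at h3
    rw [← h3]
    field_simp

end Pool.Agent.helper20.BDC
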