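import Pool.Agent.helper22.ACC.Main
import Pool.Agent.helper20.BDC.Rat

/-!
# Log canonicity with rational coefficients
-/

noncomputable section

namespace Pool.Agent.helper20.BDC

open Finset Filter Topology
open Pool.Agent.helper22.ACC (od Sm od_nonneg od_mono od_bdd)

variable {d K : ℕ}

/-- the log discrepancy in coordinates, with indexed ideals -/
def FE (C : ℝ) (b : Fin d → ℝ) (μ : Fin K → ℝ) (E : Fin K → Set (Fin d → ℕ)) (u : Fin d → ℝ) : ℝ :=
  ∑ i, u i * (C - b i) - ∑ j, μ j * od (E j) u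

theorem finite_le {u : Fin d → ℝ} (hu : ∀ i, 0 < u i) (B : ℝ) :
    {e : Fin d → ℕ | ∑ i, (e i : ℝ) * u i ≤ B}.Finite := by
  refine (Set.finite_Icc (0 : Fin d → ℕ) (fun i => ⌊B / u i⌋₊)).subset fun e he => ?_
  refine ⟨fun i => Nat.zero_le _, fun i => ?_⟩
  apply Nat.le_floor
  rw [le_div_iff₀ (hu i)]
  refine le_trans ?_ he
  exact Finset.single_le_sum (f := fun i => (e i : ℝ) * u i)
    (fun i _ => mul_nonneg (Nat.cast_nonneg _) (hu i).le) (Finset.mem_univ i)

theorem od_attained {E : Set (Fin d → ℕ)} (hE : E.Nonempty) {u : Fin d → ℝ} (hu : ∀ i, 0 < u i) :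
    ∃ e ∈ E, od E u = ∑ i, (e i : ℝ) * u i := by
  obtain ⟨e0, he0⟩ := hE
  have hfin := (finite_le hu (∑ i, (e0 i : ℝ) * u i)).inter_of_right E
  obtain ⟨e, he, hmin⟩ := hfin.toFinset.exists_min_image (fun e => ∑ i, (e i : ℝ) * u i)
    ⟨e0, by
      rw [Set.Finite.mem_toFinset]
      exact ⟨he0, le_refl (∑ i, (e0 i : ℝ) * u i)⟩⟩
  rw [Set.Finite.mem_toFinset] at he
  refine ⟨e, he.1, le_antisymm (csInf_le (od_bdd E hu) ⟨e, he.1, rfl⟩) ?_⟩
  apply le_csInf (Set.Nonempty.image _ ⟨e0, he0⟩)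
  rintro _ ⟨e', he', rfl⟩
  by_cases h : ∑ i, (e' i : ℝ) * u i ≤ ∑ i, (e0 i : ℝ) * u i
  · exact hmin e' (by rw [Set.Finite.mem_toFinset]; exact ⟨he', h⟩)
  · exact he.2.trans (not_le.1 h).le

theorem od_le {E : Set (Fin d → ℕ)} {u : Fin d → ℝ} (hu : ∀ i, 0 < u i) {e : Fin d → ℕ}
    (he : e ∈ E) : od E u ≤ ∑ i, (e i : ℝ) * u i :=
  csInf_le (od_bdd E hu) ⟨e, he, rfl⟩

theorem exists_basis (E : Set (Fin d → ℕ)) :
    ∃ G : Finset (Fin d → ℕ), (∀ g ∈ G, g ∈ E) ∧ ∀ e ∈ E, ∃ g ∈ G, g ≤ e := by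
  have hfin : {x | Minimal (· ∈ E) x}.Finite :=
    WellQuasiOrderedLE.finite_of_isAntichain (setOfPred_minimal_antichain _)
  refine ⟨hfin.toFinset, ?_, ?_⟩
  · intro g hg
    rw [Set.Finite.mem_toFinset] at hg
    exact hg.prop
  · intro e he
    obtain ⟨g, hge, hg⟩ := exists_minimal_le_of_wellFoundedLT (· ∈ E) e he
    exact ⟨g, by rw [Set.Finite.mem_toFinset]; exact hg, hge⟩

/-- **Certificate** of log canonicity -/
theorem cert {C : ℝ} {b : Fin d → ℝ} {μ : Fin K → ℝ} {G : Fin K → Finset (Fin d → ℕ)}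
    (hG : ∀ j, (G j).Nonempty)
    (hF : ∀ u : Fin d → ℝ, (∀ i, 0 < u i) → 0 ≤ FE C b μ (fun j => (G j : Set (Fin d → ℕ))) u) :
    ∃ α : ((j : Fin K) → G j) → ℝ, (∀ e, 0 ≤ α e) ∧ ∑ e, α e = 1 ∧
      ∀ i, b i + ∑ e, α e * ∑ j, μ j * ((e j : Fin d → ℕ) i : ℝ) ≤ C := by
  classical
  set T := (j : Fin K) → G j with hT
  set lam : T → Fin d → ℝ := fun e i => C - b i - ∑ j, μ j * ((e j : Fin d → ℕ) i : ℝ) with hlam
  let Φ : (T → ℝ) →ₗ[ℝ] (Fin d → ℝ) :=
    { toFun := fun α => ∑ e, α e • lam e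
      map_add' := by
        intro α β
        simp only [Pi.add_apply, add_smul, Finset.sum_add_distrib]
      map_smul' := by
        intro c α
        simp only [Pi.smul_apply, smul_eq_mul, mul_smul, Finset.smul_sum, RingHom.id_apply] }
  have hΦc : Continuous Φ := Φ.continuous_of_finiteDimensional
  set s := Φ '' stdSimplex ℝ T with hs
  have hsc : IsCompact s := (isCompact_stdSimplex ℝ T).image hΦc
  have hsconv : Convex ℝ s := (convex_stdSimplex ℝ T).linear_image Φ
  set P : Set (Fin d → ℝ) := {x | ∀ i, 0 ≤ x i} with hP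
  have hPclosed : IsClosed P := by
    have : P = ⋂ i, {x : Fin d → ℝ | 0 ≤ x i} := by ext x; simp [hP]
    rw [this]
    exact isClosed_iInter fun i => isClosed_le continuous_const (continuous_apply i)
  have hPconv : Convex ℝ P := by
    intro x hx y hy p q hp hq _ i
    simp only [Pi.add_apply, Pi.smul_apply, smul_eq_mul]
    exact add_nonneg (mul_nonneg hp (hx i)) (mul_nonneg hq (hy i))
  by_cases hdis : Disjoint s P
  · exfalso
    obtain ⟨f, u, v, hf1, huv, hf2⟩ :=
      geometric_hahn_banach_compact_closed hsconv hsc hPconv hPclosed hdis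
    have hv0 : v < 0 := by
      have := hf2 0 (fun i => le_rfl)
      simpa using this
    have hexp : ∀ x : Fin d → ℝ, f x = ∑ i, x i * f (Pi.single i 1) := by
      intro x
      have h1 : x = ∑ i, x i • (Pi.single i (1 : ℝ) : Fin d → ℝ) := by
        funext k
        simp only [Finset.sum_apply, Pi.smul_apply, smul_eq_mul, Pi.single_apply, mul_ite, mul_one,
          mul_zero]
        simp
      conv_lhs => rw [h1]
      rw [map_sum]
      exact Finset.sum_congr rfl fun i _ => by rw [map_smul, smul_eq_mul]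
    have hfi : ∀ i, 0 ≤ f (Pi.single i 1) := by
      intro i
      by_contra hneg
      push Not at hneg
      obtain ⟨N, hN⟩ := exists_nat_gt (v / f (Pi.single i 1))
      have h1 := hf2 ((N : ℝ) • (Pi.single i (1 : ℝ) : Fin d → ℝ)) (fun k => by
        simp only [Pi.smul_apply, smul_eq_mul, Pi.single_apply]
        split_ifs <;> simp)
      rw [map_smul, smul_eq_mul] at h1
      rw [div_lt_iff_of_neg hneg] at hN
      linarith
    have hlam1 : ∀ e : T, ∑ i, lam e i * f (Pi.single i 1) < u := by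
      intro e
      rw [← hexp]
      apply hf1
      refine ⟨Pi.single e 1, single_mem_stdSimplex ℝ e, ?_⟩
      change ∑ e', (Pi.single e (1 : ℝ) : T → ℝ) e' • lam e' = lam e
      rw [Finset.sum_eq_single e]
      · simp
      · intro e' _ h
        rw [Pi.single_eq_of_ne h, zero_smul]
      · intro h; exact absurd (Finset.mem_univ _) h
    -- perturbation
    obtain ⟨M, hM0, hM⟩ : ∃ M : ℝ, 0 ≤ M ∧ ∀ e : T, ∑ i, lam e i ≤ M := by
      refine ⟨∑ e : T, |∑ i, lam e i|, Finset.sum_nonneg fun _ _ => abs_nonneg _, fun e => ?_⟩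
      exact (le_abs_self _).trans (Finset.single_le_sum (f := fun e : T => |∑ i, lam e i|)
        (fun _ _ => abs_nonneg _) (Finset.mem_univ e))
    set ε : ℝ := -u / (2 * (M + 1)) with hε
    have hu0 : u < 0 := by linarith
    have hε0 : 0 < ε := div_pos (by linarith) (by linarith)
    have hεM : ε * M ≤ -u / 2 := by
      rw [hε]
      rw [div_mul_eq_mul_div, div_le_div_iff₀ (by linarith) (by norm_num)]
      nlinarith
    set u0 : Fin d → ℝ := fun i => f (Pi.single i 1) + ε with hu0def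
    have hu0pos : ∀ i, 0 < u0 i := fun i => by have := hfi i; simp only [hu0def]; linarith
    have hmin : ∀ j, ∃ e : G j, od (G j : Set (Fin d → ℕ)) u0 =
        ∑ i, ((e : Fin d → ℕ) i : ℝ) * u0 i := by
      intro j
      obtain ⟨e, he, h⟩ := od_attained (E := (G j : Set (Fin d → ℕ)))
        (by exact_mod_cast hG j) hu0pos
      exact ⟨⟨e, by exact_mod_cast he⟩, h⟩
    choose e he using hmin
    have h1 := hF u0 hu0pos
    have h2 : FE C b μ (fun j => (G j : Set (Fin d → ℕ))) u0 = ∑ i, lam e i * u0 i := by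
      simp only [FE, hlam, he]
      have h3 : ∑ j, μ j * ∑ i, ((e j : Fin d → ℕ) i : ℝ) * u0 i =
          ∑ i, (∑ j, μ j * ((e j : Fin d → ℕ) i : ℝ)) * u0 i := by
        simp only [Finset.mul_sum, Finset.sum_mul]
        rw [Finset.sum_comm]
        exact Finset.sum_congr rfl fun i _ => Finset.sum_congr rfl fun j _ => by ring
      rw [h3, ← Finset.sum_sub_distrib]
      exact Finset.sum_congr rfl fun i _ => by ring
    rw [h2] at h1
    have h4 : ∑ i, lam e i * u0 i = ∑ i, lam e i * f (Pi.single i 1) + ε * ∑ i, lam e i := by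
      rw [Finset.mul_sum, ← Finset.sum_add_distrib]
      exact Finset.sum_congr rfl fun i _ => by simp only [hu0def]; ring
    have h5 := hlam1 e
    have h6 : ε * ∑ i, lam e i ≤ ε * M := mul_le_mul_of_nonneg_left (hM e) hε0.le
    linarith
  · rw [Set.not_disjoint_iff] at hdis
    obtain ⟨x, ⟨α, hα, rfl⟩, hx⟩ := hdis
    refine ⟨α, hα.1, hα.2, fun i => ?_⟩
    have h1 := hx i
    change 0 ≤ (∑ e, α e • lam e) i at h1
    simp only [Finset.sum_apply, Pi.smul_apply, smul_eq_mul, hlam] at h1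
    have h2 : ∑ e, α e * (C - b i - ∑ j, μ j * ((e j : Fin d → ℕ) i : ℝ)) =
        C - b i - ∑ e, α e * ∑ j, μ j * ((e j : Fin d → ℕ) i : ℝ) := by
      simp only [mul_sub, Finset.sum_sub_distrib, ← Finset.sum_mul, hα.2, one_mul]
    rw [h2] at h1
    linarith

end Pool.Agent.helper20.BDC
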