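import Mathlib

/-!
# Integral functionals which are bounded above

Every large positive vector `w` has an integral vector `0 ≤ z < w`, `z ≠ 0`, such that all integral
functionals `l` with coefficients at most `N` which are nonnegative at `w - z` are nonnegative at `z`.
-/

noncomputable section

namespace Pool.Agent.helper20.BDC

open Finset Filter Topology

variable {d : ℕ}

/-- simultaneous approximation -/
theorem dirichlet (a : Fin d → ℝ) {η : ℝ} (hη : 0 < η) :
    ∃ s : ℕ, 1 ≤ s ∧ ∃ n : Fin d → ℤ, ∀ i, |(n i : ℝ) - s * a i| < η := by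
  have hcomp : IsCompact (Set.Icc (0 : Fin d → ℝ) 1) := isCompact_Icc
  set x : ℕ → Fin d → ℝ := fun k i => Int.fract ((k : ℝ) * a i) with hx
  obtain ⟨b, -, φ, hφ, hlim⟩ := hcomp.tendsto_subseq (x := x) (fun k =>
    ⟨fun i => Int.fract_nonneg _, fun i => (Int.fract_lt_one _).le⟩)
  have hc : CauchySeq (x ∘ φ) := hlim.cauchySeq
  rw [Metric.cauchySeq_iff'] at hc
  obtain ⟨K, hK⟩ := hc η hη
  have h1 := hK (K + 1) (Nat.le_succ K)
  have hlt : φ K < φ (K + 1) := hφ (Nat.lt_succ_self K)
  refine ⟨φ (K + 1) - φ K, by omega,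
    fun i => ⌊(φ (K + 1) : ℝ) * a i⌋ - ⌊(φ K : ℝ) * a i⌋, fun i => ?_⟩
  have h2 : dist (x (φ (K + 1)) i) (x (φ K) i) < η := lt_of_le_of_lt (dist_le_pi_dist _ _ i) h1
  rw [Real.dist_eq] at h2
  simp only [hx, Int.fract] at h2
  rw [abs_sub_comm] at h2
  rw [Nat.cast_sub hlt.le]
  push_cast
  convert h2 using 2
  ring

theorem intFun (d N : ℕ) : ∃ R : ℝ, ∀ w : Fin d → ℝ, (∀ i, 0 < w i) → R < ∑ i, w i →
    ∃ z : Fin d → ℕ, z ≠ 0 ∧ (∀ i, (z i : ℝ) < w i) ∧ ∀ l : Fin d → ℤ, (∀ i, l i ≤ N) →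
      0 ≤ ∑ i, (l i : ℝ) * (w i - z i) → 0 ≤ ∑ i, (l i : ℝ) * z i := by
  classical
  by_contra hcon
  push Not at hcon
  choose w hw hsum hbad using fun k : ℕ => hcon k
  -- the directions
  have hW : ∀ k, 0 < ∑ i, w k i := fun k => lt_of_le_of_lt (Nat.cast_nonneg k) (hsum k)
  have hcomp : IsCompact (Set.Icc (0 : Fin d → ℝ) 1) := isCompact_Icc
  set ω : ℕ → Fin d → ℝ := fun k i => w k i / ∑ i, w k i with hω
  obtain ⟨a, ha, φ, hφ, hlim⟩ := hcomp.tendsto_subseq (x := ω) (fun k =>
    ⟨fun i => div_nonneg (hw k i).le (hW k).le, fun i => by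
      simp only [hω]
      rw [div_le_iff₀ (hW k)]
      simp only [Pi.one_apply, one_mul]
      exact Finset.single_le_sum (f := w k) (fun i _ => (hw k i).le) (Finset.mem_univ i)⟩)
  have ha0 : ∀ i, 0 ≤ a i := fun i => ha.1 i
  have hlimi : ∀ i, Tendsto (fun k => ω (φ k) i) atTop (𝓝 (a i)) := fun i =>
    (tendsto_pi_nhds.1 hlim) i
  have hasum : ∑ i, a i = 1 := by
    have h1 : Tendsto (fun k => ∑ i, ω (φ k) i) atTop (𝓝 (∑ i, a i)) :=
      tendsto_finsetSum _ fun i _ => hlimi i
    have h2 : ∀ k, ∑ i, ω (φ k) i = 1 := by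
      intro k
      simp only [hω]
      rw [← Finset.sum_div, div_self (hW (φ k)).ne']
    simp only [h2] at h1
    exact tendsto_nhds_unique tendsto_const_nhds h1 |>.symm
  obtain ⟨i1, hi1⟩ : ∃ i, 0 < a i := by
    by_contra h
    push Not at h
    have : ∑ i, a i ≤ 0 := Finset.sum_nonpos fun i _ => h i
    linarith
  -- the constant `c`
  obtain ⟨c, hc0, hc1, hc⟩ : ∃ c : ℝ, 0 < c ∧ c ≤ 1 ∧ ∀ i, 0 < a i → 2 * c ≤ a i := by
    have h1 : ∃ c0 : ℝ, 0 < c0 ∧ ∀ i, 0 < a i → c0 ≤ a i := by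
      obtain ⟨j, hj, hmin⟩ := (univ.filter fun i => 0 < a i).exists_min_image a
        ⟨i1, by simpa using hi1⟩
      refine ⟨a j, by simpa using hj, fun i hi => hmin i (by simpa using hi)⟩
    obtain ⟨c0, h0, h1⟩ := h1
    refine ⟨min (c0 / 2) 1, lt_min (by linarith) one_pos, min_le_right _ _, fun i hi => ?_⟩
    have := min_le_left (c0 / 2) 1
    linarith [h1 i hi]
  set B : ℝ := 2 * (N + 1) / c with hB
  have hB0 : 0 < B := by positivity
  have hBN : (N : ℝ) ≤ B := by
    rw [hB, le_div_iff₀ hc0]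
    have : (0 : ℝ) ≤ N := Nat.cast_nonneg N
    nlinarith
  have hd : (0 : ℝ) ≤ d := Nat.cast_nonneg d
  -- approximation
  set η : ℝ := min c (1 / (2 * (d + 1) * B)) with hη
  have hη0 : 0 < η := lt_min hc0 (by positivity)
  have hηc : η ≤ c := min_le_left _ _
  have hηd : d * (B * η) ≤ 1 / 2 := by
    have h1 : η ≤ 1 / (2 * (d + 1) * B) := min_le_right _ _
    have h2 : B * η ≤ B * (1 / (2 * (d + 1) * B)) := mul_le_mul_of_nonneg_left h1 hB0.le
    have h3 : B * (1 / (2 * (d + 1) * B)) = 1 / (2 * (d + 1)) := by field_simp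
    have h4 : (d : ℝ) * (1 / (2 * (d + 1))) ≤ 1 / 2 := by
      rw [mul_one_div, div_le_div_iff₀ (by positivity) (by norm_num)]
      linarith
    calc (d : ℝ) * (B * η) ≤ d * (1 / (2 * (d + 1))) := by
          apply mul_le_mul_of_nonneg_left _ hd
          rw [← h3]; exact h2
      _ ≤ 1 / 2 := h4
  obtain ⟨s, hs, n, hn⟩ := dirichlet a hη0
  have hs0 : (0 : ℝ) < s := by exact_mod_cast hs
  have hs1 : (1 : ℝ) ≤ s := by exact_mod_cast hs
  have hnpos : ∀ i, 0 < a i → 0 < n i := by
    intro i hi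
    have h1 := abs_lt.1 (hn i)
    have h2 := hc i hi
    have h3 : a i ≤ s * a i := by nlinarith
    have h4 : (0 : ℝ) < n i := by linarith
    exact_mod_cast h4
  set z : Fin d → ℕ := fun i => if 0 < a i then (n i).toNat else 0 with hz
  have hzI : ∀ i, 0 < a i → (z i : ℝ) = n i := by
    intro i hi
    have h1 : ((n i).toNat : ℤ) = n i := Int.toNat_of_nonneg (hnpos i hi).le
    simp only [hz, if_pos hi]
    exact_mod_cast h1
  have hzO : ∀ i, ¬ 0 < a i → z i = 0 := fun i hi => by simp only [hz, if_neg hi]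
  have hz0 : z ≠ 0 := by
    intro h
    have h1 : z i1 = 0 := by rw [h]; rfl
    have h2 := hzI i1 hi1
    rw [h1] at h2
    have h3 := hnpos i1 hi1
    have h4 : (0 : ℝ) < n i1 := by exact_mod_cast h3
    simp only [Nat.cast_zero] at h2
    linarith
  set Z : ℝ := ∑ i, (z i : ℝ) with hZ
  have hZ0 : 0 ≤ Z := Finset.sum_nonneg fun i _ => Nat.cast_nonneg _
  have hzZ : ∀ i, (z i : ℝ) ≤ Z := fun i =>
    Finset.single_le_sum (f := fun i => (z i : ℝ)) (fun i _ => Nat.cast_nonneg _)
      (Finset.mem_univ i)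
  -- the error
  set ε : ℝ := min c (1 / (4 * s * (d + 1) * B)) with hε
  have hε0 : 0 < ε := lt_min hc0 (by positivity)
  have hεc : ε ≤ c := min_le_left _ _
  have hεd : d * (B * ε) ≤ 1 / (4 * s) := by
    have h1 : ε ≤ 1 / (4 * s * (d + 1) * B) := min_le_right _ _
    have h2 : B * ε ≤ B * (1 / (4 * s * (d + 1) * B)) := mul_le_mul_of_nonneg_left h1 hB0.le
    have h3 : B * (1 / (4 * s * (d + 1) * B)) = 1 / (4 * s * (d + 1)) := by field_simp
    have h4 : (d : ℝ) * (1 / (4 * s * (d + 1))) ≤ 1 / (4 * s) := by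
      rw [mul_one_div, div_le_div_iff₀ (by positivity) (by positivity)]
      nlinarith
    calc (d : ℝ) * (B * ε) ≤ d * (1 / (4 * s * (d + 1))) := by
          apply mul_le_mul_of_nonneg_left _ hd
          rw [← h3]; exact h2
      _ ≤ 1 / (4 * s) := h4
  -- a good index
  obtain ⟨k, hk1, hk2⟩ : ∃ k, (∀ i, |ω (φ k) i - a i| < ε) ∧
      max (2 * Z / c) (4 * s * (B * Z)) < ∑ i, w (φ k) i := by
    have h1 : ∀ᶠ k in atTop, ∀ i, |ω (φ k) i - a i| < ε := by
      rw [Filter.eventually_all]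
      intro i
      have := (hlimi i).eventually (Metric.ball_mem_nhds (a i) hε0)
      exact this.mono fun k hk => by rwa [Real.dist_eq] at hk
    obtain ⟨K0, hK0⟩ := exists_nat_gt (max (2 * Z / c) (4 * s * (B * Z)))
    have h2 : ∀ᶠ k in atTop, K0 ≤ k := Filter.eventually_ge_atTop K0
    obtain ⟨k, hk1, hk2⟩ := (h1.and h2).exists
    refine ⟨k, hk1, hK0.trans_le ?_⟩
    have h3 : (K0 : ℝ) ≤ φ k := by exact_mod_cast hk2.trans (hφ.id_le k)
    exact h3.trans (hsum (φ k)).le
  set W := ∑ i, w (φ k) i with hWdef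
  have hW0 : 0 < W := hW (φ k)
  have hwω : ∀ i, w (φ k) i = W * ω (φ k) i := by
    intro i
    simp only [hω]
    rw [← hWdef]
    field_simp
  have hcW : Z < c * W / 2 := by
    have h1 := (le_max_left _ _).trans_lt hk2
    rw [div_lt_iff₀ hc0] at h1
    linarith
  have hwI : ∀ i, 0 < a i → c * W ≤ w (φ k) i := by
    intro i hi
    have h1 := abs_lt.1 (hk1 i)
    have h2 := hc i hi
    rw [hwω i, mul_comm]
    apply mul_le_mul_of_nonneg_left _ hW0.le
    linarith
  have hzw : ∀ i, (z i : ℝ) < w (φ k) i := by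
    intro i
    by_cases hi : 0 < a i
    · have h1 := hwI i hi
      have h2 := hzZ i
      have h3 : 0 < c * W := by positivity
      linarith
    · rw [hzO i hi]
      simpa using hw (φ k) i
  obtain ⟨l, hl, hl1, hl2⟩ := hbad (φ k) z hz0 hzw
  have hlN : ∀ i, (l i : ℝ) ≤ N := fun i => by exact_mod_cast hl i
  have hl3 : ∑ i, (l i : ℝ) * z i ≤ -1 := by
    have h1 : ∑ i, (l i : ℝ) * z i = ((∑ i, l i * (z i : ℤ) : ℤ) : ℝ) := by push_cast; rfl
    rw [h1] at hl2 ⊢
    have h2 : (∑ i, l i * (z i : ℤ)) < 0 := by exact_mod_cast hl2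
    have h3 : (∑ i, l i * (z i : ℤ)) ≤ -1 := by omega
    exact_mod_cast h3
  -- bound for the coefficients
  have hupos : ∀ i, 0 < w (φ k) i - z i := fun i => sub_pos.2 (hzw i)
  have hlB : ∀ i, 0 < a i → -B ≤ l i := by
    intro i hi
    by_contra hneg
    push Not at hneg
    have h1 : ∑ j, (l j : ℝ) * (w (φ k) j - z j) ≤
        l i * (w (φ k) i - z i) + N * W := by
      rw [← Finset.add_sum_erase _ _ (Finset.mem_univ i)]
      apply add_le_add le_rfl
      calc ∑ j ∈ univ.erase i, (l j : ℝ) * (w (φ k) j - z j)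
          ≤ ∑ j ∈ univ.erase i, (N : ℝ) * w (φ k) j := by
            refine Finset.sum_le_sum fun j _ => ?_
            have h2 := hupos j
            have h3 := hlN j
            have h4 : (0 : ℝ) ≤ z j := Nat.cast_nonneg _
            have h5 : (0 : ℝ) ≤ N := Nat.cast_nonneg N
            nlinarith
        _ ≤ ∑ j, (N : ℝ) * w (φ k) j := by
            apply Finset.sum_le_sum_of_subset_of_nonneg (Finset.erase_subset _ _)
            intro j _ _
            exact mul_nonneg (Nat.cast_nonneg N) (hw (φ k) j).le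
        _ = N * W := by rw [← Finset.mul_sum]
    have h2 : c * W / 2 ≤ w (φ k) i - z i := by
      have := hwI i hi
      have := hzZ i
      linarith
    have h3 : l i * (w (φ k) i - z i) ≤ -B * (c * W / 2) := by
      have h4 : (0 : ℝ) < c * W / 2 := by positivity
      nlinarith
    have h5 : -B * (c * W / 2) = -(N + 1) * W := by
      rw [hB]; field_simp
    rw [h5] at h3
    nlinarith
  -- the estimate
  have hmain : ∀ i, (l i : ℝ) * w (φ k) i ≤
      W / s * (l i * z i + B * η) + W * (B * ε) := by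
    intro i
    have h1 := abs_lt.1 (hk1 i)
    rw [hwω i]
    by_cases hi : 0 < a i
    · have h2 := abs_lt.1 (hn i)
      have h3 := hlB i hi
      have h4 := (hlN i).trans hBN
      rw [hzI i hi]
      have habs : |(l i : ℝ)| ≤ B := abs_le.2 ⟨h3, h4⟩
      have e1 : (l i : ℝ) * (ω (φ k) i - a i) ≤ B * ε := by
        calc (l i : ℝ) * (ω (φ k) i - a i) ≤ |(l i : ℝ) * (ω (φ k) i - a i)| := le_abs_self _
          _ = |(l i : ℝ)| * |ω (φ k) i - a i| := abs_mul _ _
          _ ≤ B * ε := mul_le_mul habs (hk1 i).le (abs_nonneg _) hB0.le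
      have e2 : (l i : ℝ) * (s * a i - n i) ≤ B * η := by
        calc (l i : ℝ) * (s * a i - n i) ≤ |(l i : ℝ) * (s * a i - n i)| := le_abs_self _
          _ = |(l i : ℝ)| * |s * a i - n i| := abs_mul _ _
          _ ≤ B * η := by
              rw [abs_sub_comm]
              exact mul_le_mul habs (hn i).le (abs_nonneg _) hB0.le
      have e3 : W / s * (l i * n i + B * η) - W * (l i * a i) =
          W / s * (B * η - l i * (s * a i - n i)) := by
        field_simp
        ring
      have e4 : 0 ≤ W / s * (B * η - l i * (s * a i - n i)) :=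
        mul_nonneg (by positivity) (by linarith)
      have e5 : (l i : ℝ) * (W * ω (φ k) i) =
          W * (l i * a i) + W * (l i * (ω (φ k) i - a i)) := by ring
      have e6 := mul_le_mul_of_nonneg_left e1 hW0.le
      linarith
    · have hai : a i = 0 := le_antisymm (not_lt.1 hi) (ha0 i)
      rw [hai, sub_zero] at h1
      rw [hzO i hi]
      have h2 : 0 ≤ ω (φ k) i := div_nonneg (hw (φ k) i).le hW0.le
      have h3 : (l i : ℝ) * ω (φ k) i ≤ B * ε := by
        have := (hlN i).trans hBN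
        nlinarith
      have h4 : 0 ≤ W / s * (l i * ((0 : ℕ) : ℝ) + B * η) := by
        simp only [Nat.cast_zero, mul_zero, zero_add]
        positivity
      have e5 : (l i : ℝ) * (W * ω (φ k) i) = W * (l i * ω (φ k) i) := by ring
      have e6 := mul_le_mul_of_nonneg_left h3 hW0.le
      linarith
  have hsumw : ∑ i, (l i : ℝ) * w (φ k) i ≤ - (W / (4 * s)) := by
    calc ∑ i, (l i : ℝ) * w (φ k) i
        ≤ ∑ i, (W / s * (l i * z i + B * η) + W * (B * ε)) := Finset.sum_le_sum fun i _ => hmain i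
      _ = W / s * (∑ i, (l i : ℝ) * z i + d * (B * η)) + W * (d * (B * ε)) := by
          rw [Finset.sum_add_distrib, ← Finset.mul_sum, Finset.sum_add_distrib]
          simp only [Finset.sum_const, Finset.card_univ, Fintype.card_fin, nsmul_eq_mul]
          ring
      _ ≤ W / s * (-1 + 1 / 2) + W * (1 / (4 * s)) := by
          apply add_le_add
          · apply mul_le_mul_of_nonneg_left _ (by positivity)
            linarith
          · exact mul_le_mul_of_nonneg_left hεd hW0.le
      _ = - (W / (4 * s)) := by field_simp; ring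
  have hlow : - (B * Z) ≤ ∑ i, (l i : ℝ) * z i := by
    rw [hZ, Finset.mul_sum, ← Finset.sum_neg_distrib]
    refine Finset.sum_le_sum fun i _ => ?_
    by_cases hi : 0 < a i
    · have h3 := hlB i hi
      have h4 : (0 : ℝ) ≤ z i := Nat.cast_nonneg _
      nlinarith
    · rw [hzO i hi]; simp
  have hfin : ∑ i, (l i : ℝ) * (w (φ k) i - z i) =
      ∑ i, (l i : ℝ) * w (φ k) i - ∑ i, (l i : ℝ) * z i := by
    rw [← Finset.sum_sub_distrib]
    exact Finset.sum_congr rfl fun i _ => by ring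
  rw [hfin] at hl1
  have hlast : B * Z < W / (4 * s) := by
    have h1 := (le_max_right _ _).trans_lt hk2
    rw [lt_div_iff₀ (by positivity)]
    linarith
  linarith

end Pool.Agent.helper20.BDC
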