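import Pool.Agent.helper20.BDC.IntFun
import Pool.Agent.helper20.BDC.Cert

/-!
# Large points can be reduced: fixed limit data
-/

noncomputable section

namespace Pool.Agent.helper20.BDC

open Finset Filter Topology
open Pool.Agent.helper22.ACC (od Sm od_nonneg od_mono od_bdd)

variable {d K : ℕ}

/-- log canonical data are convex combinations of rational log canonical data -/
theorem rat_parts {C : ℕ} {b : Fin d → ℝ} {μ : Fin K → ℝ} {E : Fin K → Set (Fin d → ℕ)}
    (hE : ∀ j, (E j).Nonempty) (hb : ∀ i, 0 ≤ b i) (hμ : ∀ j, 0 ≤ μ j)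
    (hF : ∀ u : Fin d → ℝ, (∀ i, 0 < u i) → 0 ≤ FE C b μ E u) :
    ∃ (ι : Type) (_ : Fintype ι) (p : ι → ℝ) (b' : ι → Fin d → ℚ) (μ' : ι → Fin K → ℚ),
      (∀ k, 0 ≤ p k) ∧ ∑ k, p k = 1 ∧ (∀ k i, 0 ≤ b' k i) ∧ (∀ k j, 0 ≤ μ' k j) ∧
      (∀ k, ∀ u : Fin d → ℝ, (∀ i, 0 < u i) →
        0 ≤ FE C (fun i => (b' k i : ℝ)) (fun j => (μ' k j : ℝ)) E u) ∧
      (∀ i, b i = ∑ k, p k * b' k i) ∧ (∀ j, μ j = ∑ k, p k * μ' k j) := by
  classical
  choose G hG1 hG2 using fun j => exists_basis (E j)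
  have hGne : ∀ j, (G j).Nonempty := fun j => by
    obtain ⟨e, he⟩ := hE j
    obtain ⟨g, hg, _⟩ := hG2 j e he
    exact ⟨g, hg⟩
  have hFG : ∀ u : Fin d → ℝ, (∀ i, 0 < u i) →
      0 ≤ FE C b μ (fun j => (G j : Set (Fin d → ℕ))) u := by
    intro u hu
    refine (hF u hu).trans ?_
    simp only [FE]
    apply sub_le_sub_left
    refine Finset.sum_le_sum fun j _ => mul_le_mul_of_nonneg_left ?_ (hμ j)
    apply od_mono (hE j) _ hu
    intro e he
    obtain ⟨g, hg, hge⟩ := hG2 j e he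
    exact ⟨g, by exact_mod_cast hg, hge⟩
  obtain ⟨α, hα0, hα1, hα⟩ := cert hGne hFG
  let a : ((Fin d ⊕ (Fin K × ((j : Fin K) → G j))) ⊕ Fin d) → (Fin d ⊕ (Fin K × ((j : Fin K) → G j))) → ℚ := fun c t' =>
    match c with
    | Sum.inl t => if t' = t then -1 else 0
    | Sum.inr i => match t' with
      | Sum.inl i' => if i' = i then 1 else 0
      | Sum.inr je => ((je.2 je.1 : Fin d → ℕ) i : ℚ)
  let r : ((Fin d ⊕ (Fin K × ((j : Fin K) → G j))) ⊕ Fin d) → ℚ := fun c =>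
    match c with
    | Sum.inl _ => 0
    | Sum.inr _ => (C : ℚ)
  let y : (Fin d ⊕ (Fin K × ((j : Fin K) → G j))) → ℝ := fun t =>
    match t with
    | Sum.inl i => b i
    | Sum.inr je => μ je.1 * α je.2
  have hy0 : ∀ t, 0 ≤ y t := by
    rintro (i | je)
    · exact hb i
    · exact mul_nonneg (hμ _) (hα0 _)
  have hy : ∀ c, ∑ t, (a c t : ℝ) * y t ≤ r c := by
    rintro (t | i)
    · have h1 : ∑ t', (a (Sum.inl t) t' : ℝ) * y t' = - y t := by
        rw [Finset.sum_eq_single t]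
        · simp [a]
        · intro t' _ h
          simp [a, h]
        · intro h; exact absurd (Finset.mem_univ _) h
      rw [h1]
      simp only [r, Rat.cast_zero]
      linarith [hy0 t]
    · rw [Fintype.sum_sum_type, Fintype.sum_prod_type]
      have h1 : ∑ i', (a (Sum.inr i) (Sum.inl i') : ℝ) * y (Sum.inl i') = b i := by
        rw [Finset.sum_eq_single i]
        · simp [a, y]
        · intro i' _ h
          simp [a, h]
        · intro h; exact absurd (Finset.mem_univ _) h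
      have h2 : ∑ j, ∑ e, (a (Sum.inr i) (Sum.inr (j, e)) : ℝ) * y (Sum.inr (j, e)) =
          ∑ e, α e * ∑ j, μ j * ((e j : Fin d → ℕ) i : ℝ) := by
        rw [Finset.sum_comm]
        refine Finset.sum_congr rfl fun e _ => ?_
        rw [Finset.mul_sum]
        refine Finset.sum_congr rfl fun j _ => ?_
        simp only [a, y]
        push_cast
        ring
      rw [h1, h2]
      simp only [r, Rat.cast_natCast]
      exact hα i
  obtain ⟨ι, hι, p, x, hp0, hp1, hx1, hx2⟩ := rat_decomp a r y hy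
  have hxpos : ∀ k t, 0 ≤ x k t := by
    intro k t
    have h1 := hx1 k (Sum.inl t)
    have h2 : ∑ t', a (Sum.inl t) t' * x k t' = - x k t := by
      rw [Finset.sum_eq_single t]
      · simp [a]
      · intro t' _ h
        simp [a, h]
      · intro h; exact absurd (Finset.mem_univ _) h
    rw [h2] at h1
    simp only [r] at h1
    linarith
  refine ⟨ι, hι, p, fun k i => x k (Sum.inl i), fun k j => ∑ e, x k (Sum.inr (j, e)), hp0, hp1,
    fun k i => hxpos k _, fun k j => Finset.sum_nonneg fun e _ => hxpos k _, ?_, ?_, ?_⟩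
  · intro k u hu
    have h1 : ∀ i, (x k (Sum.inl i) : ℝ) +
        ∑ j, ∑ e : ((j : Fin K) → G j), (x k (Sum.inr (j, e)) : ℝ) * ((e j : Fin d → ℕ) i : ℝ) ≤ C := by
      intro i
      have h2 := hx1 k (Sum.inr i)
      rw [Fintype.sum_sum_type, Fintype.sum_prod_type] at h2
      have h3 : ∑ i', a (Sum.inr i) (Sum.inl i') * x k (Sum.inl i') = x k (Sum.inl i) := by
        rw [Finset.sum_eq_single i]
        · simp [a]
        · intro i' _ h
          simp [a, h]
        · intro h; exact absurd (Finset.mem_univ _) h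
      rw [h3] at h2
      simp only [r, a] at h2
      have h4 : ((x k (Sum.inl i) + ∑ j, ∑ e : ((j : Fin K) → G j), ((e j : Fin d → ℕ) i : ℚ) *
          x k (Sum.inr (j, e)) : ℚ) : ℝ) ≤ ((C : ℚ) : ℝ) := by exact_mod_cast h2
      push_cast at h4
      refine le_trans (le_of_eq ?_) h4
      congr 1
      exact Finset.sum_congr rfl fun j _ => Finset.sum_congr rfl fun e _ => by ring
    simp only [FE]
    rw [sub_nonneg]
    have h5 : ∀ j, ((∑ e : ((j : Fin K) → G j), x k (Sum.inr (j, e)) : ℚ) : ℝ) * od (E j) u ≤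
        ∑ e : ((j : Fin K) → G j), (x k (Sum.inr (j, e)) : ℝ) * ∑ i, ((e j : Fin d → ℕ) i : ℝ) * u i := by
      intro j
      push_cast
      rw [Finset.sum_mul]
      refine Finset.sum_le_sum fun e _ => mul_le_mul_of_nonneg_left ?_
        (by exact_mod_cast hxpos k _)
      exact od_le hu (hG1 j _ (e j).2)
    calc ∑ j, ((∑ e : ((j : Fin K) → G j), x k (Sum.inr (j, e)) : ℚ) : ℝ) * od (E j) u
        ≤ ∑ j, ∑ e : ((j : Fin K) → G j), (x k (Sum.inr (j, e)) : ℝ) * ∑ i, ((e j : Fin d → ℕ) i : ℝ) * u i :=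
          Finset.sum_le_sum fun j _ => h5 j
      _ = ∑ i, u i * ∑ j, ∑ e : ((j : Fin K) → G j), (x k (Sum.inr (j, e)) : ℝ) * ((e j : Fin d → ℕ) i : ℝ) := by
          simp only [Finset.mul_sum]
          have e1 : ∀ j : Fin K, ∑ e : ((j : Fin K) → G j), ∑ i, (x k (Sum.inr (j, e)) : ℝ) *
              (((e j : Fin d → ℕ) i : ℝ) * u i) = ∑ i, ∑ e : ((j : Fin K) → G j), (x k (Sum.inr (j, e)) : ℝ) *
              (((e j : Fin d → ℕ) i : ℝ) * u i) := fun j => Finset.sum_comm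
          simp only [e1]
          rw [Finset.sum_comm]
          exact Finset.sum_congr rfl fun i _ => Finset.sum_congr rfl fun j _ =>
            Finset.sum_congr rfl fun e _ => by ring
      _ ≤ ∑ i, u i * (C - (x k (Sum.inl i) : ℝ)) := by
          refine Finset.sum_le_sum fun i _ => mul_le_mul_of_nonneg_left ?_ (hu i).le
          linarith [h1 i]
  · intro i
    exact hx2 (Sum.inl i)
  · intro j
    have h1 : μ j = ∑ e, y (Sum.inr (j, e)) := by
      simp only [y]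
      rw [← Finset.mul_sum, hα1, mul_one]
    rw [h1]
    simp only [hx2]
    rw [Finset.sum_comm]
    refine Finset.sum_congr rfl fun k _ => ?_
    push_cast
    rw [Finset.mul_sum]

/-- a common denominator -/
theorem common_den {α : Type} [Fintype α] (x : α → ℚ) (hx : ∀ a, 0 ≤ x a) :
    ∃ q : ℕ, 0 < q ∧ ∀ a, ∃ n : ℕ, (q : ℚ) * x a = n := by
  classical
  refine ⟨∏ a, (x a).den, Finset.prod_pos fun a _ => (x a).den_pos, fun a => ?_⟩
  refine ⟨(∏ b ∈ univ.erase a, (x b).den) * (x a).num.toNat, ?_⟩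
  rw [← Finset.mul_prod_erase univ (fun a => (x a).den) (Finset.mem_univ a)]
  push_cast
  have h1 : ((x a).den : ℚ) * x a = ((x a).num.toNat : ℚ) := by
    have h2 : (((x a).num.toNat : ℤ) : ℚ) = ((x a).num : ℚ) := by
      rw [Int.toNat_of_nonneg (Rat.num_nonneg.2 (hx a))]
    have h3 : (((x a).num.toNat : ℕ) : ℚ) = ((x a).num : ℚ) := by exact_mod_cast h2
    rw [h3, mul_comm]
    exact Rat.mul_den_eq_num (x a)
  rw [← h1]
  ring

theorem step {C : ℕ} {b : Fin d → ℝ} {μ : Fin K → ℝ} {E : Fin K → Set (Fin d → ℕ)}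
    (hE : ∀ j, (E j).Nonempty) (hb : ∀ i, 0 ≤ b i) (hμ : ∀ j, 0 ≤ μ j)
    (hF : ∀ u : Fin d → ℝ, (∀ i, 0 < u i) → 0 ≤ FE C b μ E u) :
    ∃ R : ℝ, ∀ (b1 : Fin d → ℝ) (μ1 : Fin K → ℝ) (E' : Fin K → Set (Fin d → ℕ)),
      (∀ i, b1 i ≤ b i) → (∀ j, 0 ≤ μ1 j) → (∀ j, μ1 j ≤ μ j) → (∀ j, (E' j).Nonempty) →
      (∀ j, Sm (E' j) (E j)) → ∀ w : Fin d → ℝ, (∀ i, 0 < w i) → R < ∑ i, w i →
      ∃ z : Fin d → ℕ, z ≠ 0 ∧ (∀ i, (z i : ℝ) < w i) ∧
        FE C b1 μ1 E' (fun i => w i - z i) ≤ FE C b1 μ1 E' w := by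
  classical
  obtain ⟨ι, hι, p, b', μ', hp0, hp1, hb', hμ', hF', hbe, hμe⟩ := rat_parts hE hb hμ hF
  obtain ⟨q, hq, hden⟩ := common_den (α := (ι × Fin d) ⊕ (ι × Fin K))
    (fun a => match a with
      | Sum.inl ki => b' ki.1 ki.2
      | Sum.inr kj => μ' kj.1 kj.2) (by rintro (ki | kj) <;> simp [hb', hμ'])
  have hbn : ∀ k i, ∃ n : ℕ, (q : ℚ) * b' k i = n := fun k i => hden (Sum.inl (k, i))
  have hμn : ∀ k j, ∃ n : ℕ, (q : ℚ) * μ' k j = n := fun k j => hden (Sum.inr (k, j))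
  choose nb hnb using hbn
  choose nμ hnμ using hμn
  obtain ⟨R, hR⟩ := intFun d (q * C)
  refine ⟨R, fun b1 μ1 E' hb1 hμ10 hμ1 hE' hSm w hw hRw => ?_⟩
  obtain ⟨z, hz0, hzw, hzl⟩ := hR w hw hRw
  refine ⟨z, hz0, hzw, ?_⟩
  set u : Fin d → ℝ := fun i => w i - z i with hu
  have hupos : ∀ i, 0 < u i := fun i => sub_pos.2 (hzw i)
  choose e heE he using fun j => od_attained (hE' j) hupos
  -- the functional
  have hFE : ∀ (b0 : Fin d → ℝ) (μ0 : Fin K → ℝ), FE C b0 μ0 E' u =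
      ∑ i, u i * (C - b0 i - ∑ j, μ0 j * (e j i : ℝ)) := by
    intro b0 μ0
    simp only [FE, he]
    have h3 : ∑ j, μ0 j * ∑ i, (e j i : ℝ) * u i = ∑ i, u i * ∑ j, μ0 j * (e j i : ℝ) := by
      simp only [Finset.mul_sum]
      rw [Finset.sum_comm]
      exact Finset.sum_congr rfl fun i _ => Finset.sum_congr rfl fun j _ => by ring
    rw [h3, ← Finset.sum_sub_distrib]
    exact Finset.sum_congr rfl fun i _ => by ring
  have hqr : (0 : ℝ) < q := by exact_mod_cast hq
  -- the rational functionals are nonnegative at `z`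
  have hzk : ∀ k, 0 ≤ ∑ i, (z i : ℝ) * (C - (b' k i : ℝ) - ∑ j, (μ' k j : ℝ) * (e j i : ℝ)) := by
    intro k
    set l : Fin d → ℤ := fun i => (q * C : ℕ) - (nb k i : ℤ) - ∑ j, (nμ k j : ℤ) * (e j i : ℤ)
      with hl
    have hlr : ∀ i, (l i : ℝ) = q * (C - (b' k i : ℝ) - ∑ j, (μ' k j : ℝ) * (e j i : ℝ)) := by
      intro i
      have h1 : (nb k i : ℝ) = q * (b' k i : ℝ) := by
        have := hnb k i
        have h2 : (((q : ℚ) * b' k i : ℚ) : ℝ) = ((nb k i : ℚ) : ℝ) := by rw [this]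
        push_cast at h2
        exact h2.symm
      have h2 : ∀ j, (nμ k j : ℝ) = q * (μ' k j : ℝ) := by
        intro j
        have := hnμ k j
        have h2 : (((q : ℚ) * μ' k j : ℚ) : ℝ) = ((nμ k j : ℚ) : ℝ) := by rw [this]
        push_cast at h2
        exact h2.symm
      simp only [hl]
      push_cast
      simp only [h1, h2, mul_sub, Finset.mul_sum]
      congr 1
      exact Finset.sum_congr rfl fun j _ => by ring
    have hlN : ∀ i, l i ≤ (q * C : ℕ) := by
      intro i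
      simp only [hl]
      have h1 : 0 ≤ ∑ j, (nμ k j : ℤ) * (e j i : ℤ) :=
        Finset.sum_nonneg fun j _ => by positivity
      have h2 : (0 : ℤ) ≤ nb k i := Int.natCast_nonneg _
      linarith
    have h1 : 0 ≤ ∑ i, (l i : ℝ) * (w i - z i) := by
      have h2 : ∑ i, (l i : ℝ) * (w i - z i) =
          q * FE C (fun i => (b' k i : ℝ)) (fun j => (μ' k j : ℝ)) E' u := by
        rw [hFE, Finset.mul_sum]
        refine Finset.sum_congr rfl fun i _ => ?_
        rw [hlr, hu]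
        ring
      rw [h2]
      apply mul_nonneg hqr.le
      refine (hF' k u hupos).trans ?_
      simp only [FE]
      apply sub_le_sub_left
      refine Finset.sum_le_sum fun j _ => mul_le_mul_of_nonneg_left ?_
        (by exact_mod_cast hμ' k j)
      exact od_mono (hE j) (hSm j) hupos
    have h2 := hzl l hlN h1
    have h3 : ∑ i, (l i : ℝ) * z i =
        q * ∑ i, (z i : ℝ) * (C - (b' k i : ℝ) - ∑ j, (μ' k j : ℝ) * (e j i : ℝ)) := by
      rw [Finset.mul_sum]
      refine Finset.sum_congr rfl fun i _ => ?_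
      rw [hlr]
      ring
    rw [h3] at h2
    exact nonneg_of_mul_nonneg_right h2 hqr
  -- the real functional is nonnegative at `z`
  have hz1 : 0 ≤ ∑ i, (z i : ℝ) * (C - b i - ∑ j, μ j * (e j i : ℝ)) := by
    have h1 : ∑ i, (z i : ℝ) * (C - b i - ∑ j, μ j * (e j i : ℝ)) =
        ∑ k, p k * ∑ i, (z i : ℝ) * (C - (b' k i : ℝ) - ∑ j, (μ' k j : ℝ) * (e j i : ℝ)) := by
      simp only [Finset.mul_sum]
      rw [Finset.sum_comm]
      refine Finset.sum_congr rfl fun i _ => ?_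
      have e1 : ∑ k, p k * ((z i : ℝ) * (C - (b' k i : ℝ) - ∑ j, (μ' k j : ℝ) * (e j i : ℝ))) =
          z i * (C * ∑ k, p k - ∑ k, p k * b' k i -
            ∑ k, ∑ j, p k * ((μ' k j : ℝ) * (e j i : ℝ))) := by
        have e3 : ∀ k, ∑ j, p k * ((μ' k j : ℝ) * (e j i : ℝ)) =
            p k * ∑ j, (μ' k j : ℝ) * (e j i : ℝ) := fun k => (Finset.mul_sum _ _ _).symm
        simp only [e3]
        have e4 : ∑ k, p k * ((z i : ℝ) * (C - (b' k i : ℝ) - ∑ j, (μ' k j : ℝ) * (e j i : ℝ))) =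
            ∑ k, (z i * C * p k - z i * (p k * b' k i) -
              z i * (p k * ∑ j, (μ' k j : ℝ) * (e j i : ℝ))) :=
          Finset.sum_congr rfl fun k _ => by ring
        rw [e4, Finset.sum_sub_distrib, Finset.sum_sub_distrib, ← Finset.mul_sum,
          ← Finset.mul_sum, ← Finset.mul_sum]
        ring
      have e2 : ∑ k, ∑ j, p k * ((μ' k j : ℝ) * (e j i : ℝ)) = ∑ j, μ j * (e j i : ℝ) := by
        rw [Finset.sum_comm]
        refine Finset.sum_congr rfl fun j _ => ?_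
        rw [hμe j, Finset.sum_mul]
        exact Finset.sum_congr rfl fun k _ => by ring
      rw [e1, e2, hp1, ← hbe, mul_one]
    rw [h1]
    exact Finset.sum_nonneg fun k _ => mul_nonneg (hp0 k) (hzk k)
  have hz2 : 0 ≤ ∑ i, (z i : ℝ) * (C - b1 i - ∑ j, μ1 j * (e j i : ℝ)) := by
    refine hz1.trans (Finset.sum_le_sum fun i _ => mul_le_mul_of_nonneg_left ?_
      (Nat.cast_nonneg _))
    have h1 : ∑ j, μ1 j * (e j i : ℝ) ≤ ∑ j, μ j * (e j i : ℝ) :=
      Finset.sum_le_sum fun j _ => mul_le_mul_of_nonneg_right (hμ1 j) (Nat.cast_nonneg _)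
    linarith [hb1 i]
  -- conclusion
  rw [hFE b1 μ1]
  have h1 : ∑ i, w i * (C - b1 i - ∑ j, μ1 j * (e j i : ℝ)) ≤ FE C b1 μ1 E' w := by
    simp only [FE]
    have h2 : ∑ i, w i * (C - b1 i - ∑ j, μ1 j * (e j i : ℝ)) =
        ∑ i, w i * (C - b1 i) - ∑ j, μ1 j * ∑ i, (e j i : ℝ) * w i := by
      have h3 : ∑ j, μ1 j * ∑ i, (e j i : ℝ) * w i = ∑ i, w i * ∑ j, μ1 j * (e j i : ℝ) := by
        simp only [Finset.mul_sum]
        rw [Finset.sum_comm]
        exact Finset.sum_congr rfl fun i _ => Finset.sum_congr rfl fun j _ => by ring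
      rw [h3, ← Finset.sum_sub_distrib]
      exact Finset.sum_congr rfl fun i _ => by ring
    rw [h2]
    apply sub_le_sub_left
    exact Finset.sum_le_sum fun j _ => mul_le_mul_of_nonneg_left (od_le hw (heE j)) (hμ10 j)
  refine le_trans ?_ h1
  have h4 : ∑ i, w i * (C - b1 i - ∑ j, μ1 j * (e j i : ℝ)) =
      ∑ i, u i * (C - b1 i - ∑ j, μ1 j * (e j i : ℝ)) +
      ∑ i, (z i : ℝ) * (C - b1 i - ∑ j, μ1 j * (e j i : ℝ)) := by
    rw [← Finset.sum_add_distrib]
    refine Finset.sum_congr rfl fun i _ => ?_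
    rw [hu]
    ring
  rw [h4]
  linarith

end Pool.Agent.helper20.BDC
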